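import Pool.Agent.Lib.helper18.Door

set_option autoImplicit false

open MeasureTheory Set Real Matrix
open scoped InnerProductSpace

namespace Pool.Agent.Results.MP_d572aa_gt.Door

/-- The affine map `x ↦ A x + b` of Euclidean 3-space. -/
noncomputable def act (A : Matrix (Fin 3) (Fin 3) ℝ) (b x : EuclideanSpace ℝ (Fin 3)) :
    EuclideanSpace ℝ (Fin 3) := WithLp.toLp 2 (A *ᵥ x.ofLp) + b

/-- `K` can be moved through the door `D` in the plane `x 2 = 0` by a continuous path of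
orientation-preserving rigid motions. -/
def Movable (K D : Set (EuclideanSpace ℝ (Fin 3))) : Prop :=
  ∃ (A : ℝ → Matrix (Fin 3) (Fin 3) ℝ) (b : ℝ → EuclideanSpace ℝ (Fin 3)),
    ContinuousOn A (Icc 0 1) ∧ ContinuousOn b (Icc 0 1) ∧
    (∀ t ∈ Icc (0 : ℝ) 1, A t ∈ specialOrthogonalGroup (Fin 3) ℝ) ∧
    (∀ x ∈ K, 0 < act (A 0) (b 0) x 2) ∧ (∀ x ∈ K, act (A 1) (b 1) x 2 < 0) ∧
    ∀ t ∈ Icc (0 : ℝ) 1, ∀ x ∈ K, act (A t) (b t) x 2 = 0 → act (A t) (b t) x ∈ D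

open H18Door in
theorem result : ∃ K D : Set (EuclideanSpace ℝ (Fin 3)),
    (IsCompact K ∧ Convex ℝ K ∧ (interior K).Nonempty) ∧
    (IsCompact D ∧ Convex ℝ D ∧ (∀ x ∈ D, x 2 = 0) ∧
      ∃ c ∈ D, ∃ r > 0, ∀ x, x 2 = 0 → dist x c < r → x ∈ D) ∧
    Movable K D ∧ ∀ u : EuclideanSpace ℝ (Fin 3), ‖u‖ = 1 →
      μHE[2] D < μHE[2] ((fun x => x - ⟪x, u⟫_ℝ • u) '' K) := by
  have cv : ∀ (x y : EuclideanSpace ℝ (Fin 3)) (s t : ℝ), 0 ≤ s → 0 ≤ t → ∀ i,
      |(s • x + t • y) i| ≤ s * |x i| + t * |y i| := fun x y s t hs ht i => by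
    simpa [abs_mul, abs_of_nonneg hs, abs_of_nonneg ht] using abs_add_le (s * x i) (t * y i)
  have cp : ∀ S : Set (EuclideanSpace ℝ (Fin 3)), IsClosed S →
      (∀ x ∈ S, |x 0| ≤ 2 ∧ |x 1| ≤ 2 ∧ |x 2| ≤ 200) → IsCompact S := fun S h1 h2 =>
    Metric.isCompact_of_isClosed_isBounded h1 (isBounded_iff_forall_norm_le.2 ⟨201, fun x hx => by
      refine abs_le_of_sq_le_sq' ?_ (by norm_num) |>.2
      obtain ⟨a, b, c⟩ := h2 x hx
      rw [EuclideanSpace.real_norm_sq_eq, Fin.sum_univ_three, ← sq_abs (x 0), ← sq_abs (x 1),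
        ← sq_abs (x 2)]
      nlinarith [abs_nonneg (x 0), abs_nonneg (x 1), abs_nonneg (x 2)]⟩)
  have nb : ∀ x : EuclideanSpace ℝ (Fin 3), dist x 0 < 1 / 2 → ∀ i, |x i| < 1 / 2 := fun x hx i =>
    (PiLp.norm_apply_le x i).trans_lt (by simpa using hx)
  refine ⟨K, D, ⟨cp _ (.and (isClosed_le (by fun_prop) (by fun_prop)) (isClosed_le (by fun_prop)
    (by fun_prop))) fun x ⟨a, b⟩ => ?_, fun x ⟨a1, a2⟩ y ⟨b1, b2⟩ s t hs ht hst => ?_, 0,
      mem_interior_iff_mem_nhds.2 (Filter.mem_of_superset (Metric.ball_mem_nhds 0 one_half_pos)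
        fun x hx => ?_)⟩, ⟨cp _ (.and (isClosed_eq (by fun_prop) (by fun_prop)) (.and (isClosed_le
          (by fun_prop) (by fun_prop)) (isClosed_le (by fun_prop) (by fun_prop))))
    fun x ⟨a, b, c⟩ => ?_, fun x ⟨a1, a2, a3⟩ y ⟨b1, b2, b3⟩ s t hs ht hst => ?_, fun x h => h.1,
      0, by simp [D]; norm_num, _, one_half_pos, fun x h0 h => ⟨h0, ?_⟩⟩, ?_, fun u => proj⟩
  · refine ⟨?_, ?_, abs_le.2 ⟨?_, ?_⟩⟩ <;> linarith [abs_nonneg (x 0), abs_nonneg (x 1)]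
  · have e : (s • x + t • y) 2 = s * x 2 + t * y 2 := by simp
    exact ⟨(cv x y s t hs ht 0).trans (by nlinarith), (cv x y s t hs ht 1).trans (by nlinarith)⟩
  · have := abs_lt.1 (nb x hx 2)
    constructor <;> linarith [nb x hx 0, nb x hx 1]
  · refine ⟨?_, ?_, by simp [a]⟩ <;> linarith [abs_nonneg (x 0), abs_nonneg (x 1)]
  · exact ⟨by simp [a1, b1], by nlinarith [cv x y s t hs ht 0, cv x y s t hs ht 1],
      (cv x y s t hs ht 0).trans (by nlinarith)⟩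
  · constructor <;> linarith [nb x h 0, nb x h 1]
  let θ : ℝ → ℝ := fun t => π / 2 * max 0 (min 1 (3 * t - 1))
  refine ⟨fun t => !![cos (θ t), -sin (θ t), 0; sin (θ t), cos (θ t), 0; 0, 0, 1],
    fun t => !₂[0, 0, -400 * (min (3 * t - 1) 0 + max (3 * t - 2) 0)],
    Continuous.continuousOn (continuous_matrix fun i j => ?_), Continuous.continuousOn (by fun_prop),
    fun t _ => mem_specialOrthogonalGroup_iff.2 ⟨(mem_orthogonalGroup_iff _ _).2 ?_, ?_⟩,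
    fun x ⟨a, b⟩ => ?_, fun x ⟨a, b⟩ => ?_, fun t _ x ⟨a, b⟩ h => ⟨h, ?_⟩⟩
  · fin_cases i <;> fin_cases j <;> simp <;> fun_prop
  · ext i j
    fin_cases i <;> fin_cases j <;> simp [mul_apply, Fin.sum_univ_three] <;>
      nlinarith [sin_sq_add_cos_sq (θ t)]
  · simp [det_fin_three]
    nlinarith [sin_sq_add_cos_sq (θ t)]
  · simp [act, mulVec, dotProduct, Fin.sum_univ_three]
    norm_num
    linarith [abs_nonneg (x 0)]
  · simp [act, mulVec, dotProduct, Fin.sum_univ_three]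
    norm_num
    linarith [abs_nonneg (x 1)]
  simp [act, mulVec, dotProduct, Fin.sum_univ_three] at h ⊢
  rcases le_total (3 * t - 1) 0 with h1 | h1
  · rw [min_eq_left h1, max_eq_right (by linarith)] at h
    simp only [θ, min_eq_right (h1.trans zero_le_one), max_eq_left h1]
    simp
    constructor <;> linarith
  rcases le_total 1 (3 * t - 1) with h2 | h2
  · rw [min_eq_right h1, max_eq_left (by linarith)] at h
    simp only [θ, min_eq_left h2]
    simp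
    constructor <;> linarith
  rw [min_eq_right h1, max_eq_right (by linarith)] at h
  have e := sin_sq_add_cos_sq (θ t)
  set X := cos (θ t) * x 0 + -(sin (θ t) * x 1)
  set Y := sin (θ t) * x 0 + cos (θ t) * x 1
  have : |X| ^ 2 + |Y| ^ 2 ≤ 2 := by
    have : X ^ 2 + Y ^ 2 = |x 0| ^ 2 + |x 1| ^ 2 := by
      rw [sq_abs, sq_abs]
      linear_combination (x 0 ^ 2 + x 1 ^ 2) * e
    rw [sq_abs, sq_abs]
    nlinarith [abs_nonneg (x 0), abs_nonneg (x 1)]
  constructor <;> nlinarith [abs_nonneg X, abs_nonneg Y, sq_nonneg (|X| - |Y|)]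

end Pool.Agent.Results.MP_d572aa_gt.Door
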